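import Pool.Agent.Helper772.HF3

/-!
Adsorbing and interacting self-avoiding walks and polygons in the half space of `ℤ³`: for all real
wall energies `ζ` and contact energies `γ` the walk free energy exists and equals the polygon free
energy. The definitions used in the statement are in `Pool/Agent/Helper772/HStat.lean`.

Idea of the proof: stretch the lattice by corridors between cells of side `L`, overlay a few walks
that form a closed chain with random lateral translations by multiples of the cell side, so that
only few cells are visited by two of them; clear these cells and some connecting cells, and
reconnect everything inside the cleared cells into one single polygon, above the wall. This changes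
length, wall visits and contacts by `o(n)` only, and the walks can be recovered from the polygon and
`exp (o(n))` additional data.
-/

set_option autoImplicit false

namespace Pool.Agent.Results.MP_280b4e_pr.HalfSpace

open Filter Topology

/-- For all `(ζ, γ)` the free energy of walks exists and equals the free energy of polygons. -/
theorem result : ∀ ζ γ : ℝ, ∃ κ : ℝ,
    Tendsto (fun m : ℕ => 1 / ((2 * m : ℕ) : ℝ) * Real.log (Pool.Agent.Helper772.Q (2 * m) ζ γ))
      atTop (𝓝 κ) ∧
    Tendsto (fun n : ℕ => 1 / (n : ℝ) * Real.log (Pool.Agent.Helper772.Z n ζ γ)) atTop (𝓝 κ) :=
  Pool.Agent.Helper772.HF3.result

end Pool.Agent.Results.MP_280b4e_pr.HalfSpace
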